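import Pool.Agent.Q155.AGL.Transfer

set_option autoImplicit false

namespace Pool.Agent.Results.MP_6575fe_co.Classification

open Q155.AGL

/-- Exact determination of the vanishing of `N(S_{d,H}, k)` in the range `3 ≤ k ≤ q / 2`,
`k ≡ 0` or `|H|` modulo `d |H|`. -/
theorem result {F : Type*} [Field F] [Finite F] (p : ℕ) [CharP F p] (d : ℕ)
    (hd : d ∣ Nat.card F - 1) (H : AddSubgroup F)
    (hH : ∀ u : F, u ^ d = 1 → ∀ h ∈ H, u * h ∈ H) (k : ℕ) (hk : 3 ≤ k)
    (hkF : 2 * k ≤ Nat.card F)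
    (hmod : k ≡ 0 [MOD d * Nat.card H] ∨ k ≡ Nat.card H [MOD d * Nat.card H]) :
    exactCount d H k = 0 ↔
      (k = Nat.card H ∧ d ≠ (multipliers H).ncard - 1) ∨
      (k = 2 * Nat.card H ∧ d = 1) ∨
      (k = (d + 1) * Nat.card H ∧ ∃ β, d + 1 = p ^ β) ∨
      (d = 1 ∧ Nat.card F = 7 * Nat.card H ∧ k = 3 * Nat.card H) :=
  classification p d hd H hH k (by omega) hkF hmod

end Pool.Agent.Results.MP_6575fe_co.Classification
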